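import Pool.Agent.Helper73.KT.Resid

/-! Project TB (MP_1fe969_ag). An eigenvalue `-Q` is excluded by the trace formula modulo `r`. -/

set_option autoImplicit false

namespace Pool.Agent.Helper48.TB

open Polynomial Module Pool.Agent.Helper73.KT

section key

variable {κ σ : Type*} [Field κ]

theorem lin (φ : κ[X] →ₗ[κ] κ) (h : ∀ N : ℕ, 0 < N → φ (X ^ N) = 0) (R : κ[X]) :
    φ (X * R) = 0 := by
  induction R using Polynomial.induction_on' with
  | add p q hp hq => rw [mul_add, map_add, hp, hq, add_zero]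
  | monomial n a =>
    have e : (X : κ[X]) * monomial n a = a • X ^ (n + 1) := by
      rw [← C_mul_X_pow_eq_monomial, smul_eq_C_mul]
      ring
    rw [e, map_smul, h (n + 1) n.succ_pos, smul_zero]

/-- If the power sums of the `x i` with the multiplicities `m i` are the values of a functional `ψ`
which only depends on the values of polynomials at the points of `Z`, then no `x i` is equal to
`y`, if `y` is not in `Z`. -/
theorem key {r : ℕ} [CharP κ r] (E : Finset σ) (m : σ → ℕ) (x : σ → κ) (hm : ∑ i ∈ E, m i < r)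
    (ψ : κ[X] →ₗ[κ] κ) (h : ∀ N : ℕ, 0 < N → ∑ i ∈ E, (m i : κ) * x i ^ N = ψ (X ^ N)) (y : κ)
    (hy : y ≠ 0) (Z : Finset κ) (hZ : y ∉ Z)
    (hψ : ∀ P : κ[X], (∀ z ∈ Z, P.eval z = 0) → ψ P = 0) : ∀ i ∈ E, x i = y → m i = 0 := by
  classical
  let W : Finset κ := (E.image x ∪ Z).erase y
  let P : κ[X] := X * ∏ z ∈ W, (X - C z)
  have hPz : ∀ z ∈ W, P.eval z = 0 := by
    intro z hz
    show (X * ∏ z ∈ W, (X - C z)).eval z = 0
    rw [eval_mul, eval_prod, Finset.prod_eq_zero hz (by rw [eval_sub, eval_X, eval_C, sub_self]),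
      mul_zero]
  have hPy : P.eval y ≠ 0 := by
    show (X * ∏ z ∈ W, (X - C z)).eval y ≠ 0
    rw [eval_mul, eval_X, eval_prod]
    refine mul_ne_zero hy (Finset.prod_ne_zero_iff.2 fun z hz => ?_)
    rw [eval_sub, eval_X, eval_C]
    exact sub_ne_zero.2 fun h => (Finset.mem_erase.1 hz).1 h.symm
  have h1 : ψ P = 0 := hψ P fun z hz => hPz z (Finset.mem_erase.2
    ⟨fun h => hZ (h ▸ hz), Finset.mem_union_right _ hz⟩)
  have h2 : ∑ i ∈ E, (m i : κ) * P.eval (x i) = ψ P := by
    have h3 := lin (∑ i ∈ E, (m i : κ) • leval (x i) - ψ) (fun N hN => by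
      rw [LinearMap.sub_apply, LinearMap.sum_apply, ← h N hN, sub_eq_zero]
      refine Finset.sum_congr rfl fun i _ => ?_
      rw [LinearMap.smul_apply, smul_eq_mul, leval_apply, eval_pow, eval_X])
      (∏ z ∈ W, (X - C z))
    rw [LinearMap.sub_apply, LinearMap.sum_apply, sub_eq_zero] at h3
    rw [← h3]
    refine Finset.sum_congr rfl fun i _ => ?_
    rw [LinearMap.smul_apply, smul_eq_mul, leval_apply]
  have h3 : ∑ i ∈ E, (m i : κ) * P.eval (x i) =
      ((∑ i ∈ E with x i = y, m i : ℕ) : κ) * P.eval y := by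
    rw [Nat.cast_sum, Finset.sum_mul, Finset.sum_filter]
    refine Finset.sum_congr rfl fun i hi => ?_
    split_ifs with hxy
    · rw [hxy]
    · rw [hPz (x i) (Finset.mem_erase.2 ⟨hxy, Finset.mem_union_left _
        (Finset.mem_image_of_mem x hi)⟩), mul_zero]
  have h4 : ((∑ i ∈ E with x i = y, m i : ℕ) : κ) = 0 := by
    refine (mul_eq_zero.1 ?_).resolve_right hPy
    rw [← h3, h2, h1]
  have h5 : (∑ i ∈ E with x i = y, m i) = 0 := by
    have h6 := (CharP.cast_eq_zero_iff κ r _).1 h4
    refine Nat.eq_zero_of_dvd_of_lt h6 (lt_of_le_of_lt ?_ hm)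
    exact Finset.sum_le_sum_of_subset (Finset.filter_subset _ _)
  intro i hi hxy
  exact Finset.sum_eq_zero_iff.1 h5 i (Finset.mem_filter.2 ⟨hi, hxy⟩)

end key

section val

variable {L : Type*} [Field L]

/-- a valuation ring over the prime number `r` -/
theorem exists_val [CharZero L] {r : ℕ} (hr : r.Prime) :
    ∃ A : ValuationSubring L, A.valuation (r : L) < 1 := by
  let Z : Subring L := (Int.castRingHom L).range
  have hrZ : (r : L) ∈ Z := ⟨r, by simp⟩
  obtain ⟨B, -, hB⟩ := Ideal.image_subset_nonunits_valuationSubring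
    (Ideal.span {(⟨r, hrZ⟩ : Z)}) (by
      rw [Ne, Ideal.span_singleton_eq_top]
      intro hu
      obtain ⟨⟨_, n, rfl⟩, hn⟩ := hu.exists_right_inv
      have h1 : (r : L) * (Int.castRingHom L n) = 1 := congrArg Subtype.val hn
      have h2 : (r : ℤ) * n = 1 := by
        have h3 : (((r : ℤ) * n : ℤ) : L) = ((1 : ℤ) : L) := by
          push_cast
          exact h1
        exact_mod_cast h3
      have h4 : (r : ℤ) ∣ 1 := ⟨n, h2.symm⟩
      have h5 : r ∣ 1 := by exact_mod_cast h4
      exact hr.one_lt.ne' (Nat.dvd_one.1 h5))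
  refine ⟨B, (B.mem_nonunits_iff).1 (hB ⟨⟨r, hrZ⟩, Ideal.subset_span rfl, rfl⟩)⟩

variable (A : ValuationSubring L)

/-- the residue field, algebraically closed -/
abbrev Res : Type _ := AlgebraicClosure (IsLocalRing.ResidueField A)

/-- the reduction -/
noncomputable def red : A →+* Res A :=
  (algebraMap (IsLocalRing.ResidueField A) (Res A)).comp (IsLocalRing.residue A)

theorem red_eq_zero {x : A} (h : A.valuation (x : L) < 1) : red A x = 0 := by
  have h1 : IsLocalRing.residue A x = 0 :=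
    (IsLocalRing.residue_eq_zero_iff x).2 ((A.valuation_lt_one_iff x).2 h)
  rw [red, RingHom.comp_apply, h1, map_zero]

theorem charP_res {r : ℕ} (hr : r.Prime) (h : A.valuation (r : L) < 1) : CharP (Res A) r := by
  have h1 : ((r : ℕ) : Res A) = 0 := by
    have h2 := red_eq_zero A (x := (r : A)) (by exact_mod_cast h)
    rwa [map_natCast] at h2
  exact (CharP.charP_iff_prime_eq_zero hr).2 h1

open Classical in
/-- the reduction, on `L` -/
noncomputable def rd (x : L) : Res A := if h : x ∈ A then red A ⟨x, h⟩ else 0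

theorem rd_coe (x : A) : rd A (x : L) = red A x := by
  rw [rd, dif_pos x.2]

theorem rd_mk {x : L} (h : x ∈ A) : rd A x = red A ⟨x, h⟩ := by rw [rd, dif_pos h]

theorem rd_add {x y : L} (hx : x ∈ A) (hy : y ∈ A) : rd A (x + y) = rd A x + rd A y := by
  rw [rd_mk A hx, rd_mk A hy, rd_mk A (add_mem hx hy), ← map_add]
  rfl

theorem rd_mul {x y : L} (hx : x ∈ A) (hy : y ∈ A) : rd A (x * y) = rd A x * rd A y := by
  rw [rd_mk A hx, rd_mk A hy, rd_mk A (mul_mem hx hy), ← map_mul]
  rfl

theorem rd_natCast (n : ℕ) : rd A (n : L) = n := by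
  have h := rd_coe A (n : A)
  rw [map_natCast] at h
  exact_mod_cast h

theorem rd_intCast (n : ℤ) : rd A (n : L) = n := by
  have h := rd_coe A (n : A)
  rw [map_intCast] at h
  exact_mod_cast h

theorem rd_pow {x : L} (hx : x ∈ A) (j : ℕ) : rd A (x ^ j) = rd A x ^ j := by
  rw [rd_mk A hx, rd_mk A (pow_mem hx j), ← map_pow]
  rfl

theorem rd_sum {ι : Type*} (s : Finset ι) (f : ι → L) (hf : ∀ i ∈ s, f i ∈ A) :
    rd A (∑ i ∈ s, f i) = ∑ i ∈ s, rd A (f i) := by
  classical
  revert hf
  induction s using Finset.induction_on with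
  | empty =>
    intro _
    rw [Finset.sum_empty, Finset.sum_empty]
    simpa using rd_natCast A 0
  | insert a s ha ih =>
    intro hf
    have h1 : ∀ i ∈ s, f i ∈ A := fun i hi => hf i (Finset.mem_insert_of_mem hi)
    rw [Finset.sum_insert ha, Finset.sum_insert ha,
      rd_add A (hf a (Finset.mem_insert_self a s)) (sum_mem h1), ih h1]

theorem rd_zero_of_lt {x : L} (h : A.valuation x < 1) : rd A x = 0 := by
  have hx : x ∈ A := (A.valuation_le_one_iff x).1 h.le
  rw [rd_mk A hx]
  exact red_eq_zero A h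

end val

section core

variable {L V : Type*} [Field L] [IsAlgClosed L] [AddCommGroup V] [Module L V]
  [FiniteDimensional L V]

omit [IsAlgClosed L] [FiniteDimensional L V] in
theorem gen_le (T : Module.End L V) (a : L) : T.eigenspace a ≤ T.maxGenEigenspace a := by
  intro w hw
  rw [End.mem_maxGenEigenspace]
  refine ⟨1, ?_⟩
  rw [pow_one, LinearMap.sub_apply, LinearMap.smul_apply, End.one_apply,
    End.mem_eigenspace_iff.1 hw, sub_self]

/-- the eigenvalues are integral at `A`, if the traces of the powers are -/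
theorem eigs_mem [CharZero L] {r : ℕ} (hr : r.Prime) (A : ValuationSubring L)
    (hA : A.valuation (r : L) < 1) (F : Module.End L V) (hD : finrank L V < r)
    (ht : ∀ N : ℕ, 0 < N → LinearMap.trace L V (F ^ N) ∈ A) : ∀ μ ∈ eigs F, μ ∈ A := by
  classical
  have hchar := charP_res A hr hA
  by_contra hcon
  push Not at hcon
  obtain ⟨μ₀, hμ₀, hμ₀A⟩ := hcon
  obtain ⟨y, hy, hmax⟩ := Finset.exists_max_image (eigs F) (fun μ => A.valuation μ) ⟨μ₀, hμ₀⟩
  have hy1 : 1 < A.valuation y := by
    refine lt_of_lt_of_le ?_ (hmax μ₀ hμ₀)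
    rw [← not_le, A.valuation_le_one_iff]
    exact hμ₀A
  have hy0 : y ≠ 0 := by
    rintro rfl
    rw [map_zero] at hy1
    exact absurd hy1 (not_lt.2 zero_le_one)
  have hvy0 : 0 < A.valuation y := zero_lt_one.trans hy1
  have hq : ∀ μ ∈ eigs F, μ / y ∈ A := by
    intro μ hμ
    rw [← A.valuation_le_one_iff, map_div₀]
    exact div_le_one_of_le₀ (hmax μ hμ) zero_le
  have h1 : mult F y = 0 := by
    refine key (r := r) (eigs F) (mult F) (fun μ => rd A (μ / y)) (by rwa [sum_mult F]) 0
      (fun N hN => ?_) 1 one_ne_zero ∅ (Finset.notMem_empty _) (fun P _ => rfl) y hy ?_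
    · have h2 : ∑ μ ∈ eigs F, (mult F μ : L) * (μ / y) ^ N =
          LinearMap.trace L V (F ^ N) / y ^ N := by
        rw [trace_pow, Finset.sum_div]
        refine Finset.sum_congr rfl fun μ _ => ?_
        rw [div_pow, mul_div_assoc]
      have h3 : rd A (∑ μ ∈ eigs F, (mult F μ : L) * (μ / y) ^ N) = 0 := by
        rw [h2]
        refine rd_zero_of_lt A ?_
        have e : A.valuation (y ^ N) = A.valuation y ^ N := map_pow _ _ _
        rw [map_div₀, e]
        have h4 : A.valuation (LinearMap.trace L V (F ^ N)) ≤ 1 :=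
          (A.valuation_le_one_iff _).2 (ht N hN)
        have h5 : 1 < A.valuation y ^ N := one_lt_pow₀ hy1 hN.ne'
        exact (div_lt_one₀ (zero_lt_one.trans h5)).2 (h4.trans_lt h5)
      rw [rd_sum A _ _ fun μ hμ => mul_mem (natCast_mem A _) (pow_mem (hq μ hμ) N)] at h3
      rw [LinearMap.zero_apply, ← h3]
      refine Finset.sum_congr rfl fun μ hμ => ?_
      rw [rd_mul A (natCast_mem A _) (pow_mem (hq μ hμ) N), rd_natCast, rd_pow A (hq μ hμ)]
    · show rd A (y / y) = 1
      rw [div_self hy0]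
      have h2 := rd_natCast A 1
      simpa using h2
  exact absurd (one_le_mult hy) (by omega)

end core

theorem core {L : Type} [Field L] [IsAlgClosed L] [CharZero L] {r : ℕ} (hr : r.Prime)
    (hr2 : r ≠ 2) {V : Type} [AddCommGroup V] [Module L V] [FiniteDimensional L V]
    (F : Module.End L V) (hD : Module.finrank L V < r) {n k : ℕ} (hn : n = r ^ k) {c : L}
    (hc : c ^ n = 1) {Q : ℕ} (hQ0 : 0 < Q) (hQ : r ∣ Q - 1) (cnt : ℕ → ℕ → ℕ)
    (htr : ∀ N, 0 < N → LinearMap.trace L V (F ^ N) = ∑ a ∈ Finset.range n, c ^ a * (cnt N a : L))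
    {d : ℕ} (g : Matrix (Fin d) (Fin d) ℤ) {o : ℕ} (ho : Odd o) (hg : g ^ o = 1)
    {s t : Fin 2 → L}
    (hsum : ∀ N, 0 < N → ((∑ a ∈ Finset.range n, cnt N a : ℕ) : L) =
      ((Q : L) ^ N) ^ 2 + (Q : L) ^ N * (((g ^ N).trace : ℤ) - 1) + ∑ i, (s i ^ N + t i ^ N))
    (hst : ∀ i, (t i = 0 ∧ (s i = 0 ∨ s i = 1)) ∨
      (s i * t i = Q ∧ ∃ b : ℤ, s i + t i = b ∧ ¬ (r : ℤ) ∣ 2 + b)) :
    ¬ F.HasEigenvalue (-(Q : L)) := by
  classical
  intro hF
  obtain ⟨A, hA⟩ := exists_val (L := L) hr
  have hchar := charP_res A hr hA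
  have hfact : Fact r.Prime := ⟨hr⟩
  have hn0 : 0 < n := by rw [hn]; exact pow_pos hr.pos k
  -- `c`
  have hcA : c ∈ A := by
    rw [← A.valuation_le_one_iff]
    by_contra h
    have h1 : 1 < A.valuation c ^ n := one_lt_pow₀ (not_le.1 h) hn0.ne'
    rw [← map_pow, hc, map_one] at h1
    exact lt_irrefl _ h1
  have hc1 : rd A c = 1 := by
    apply eq_one_of_pow (r := r) (e := k)
    rw [← hn, ← rd_pow A hcA, hc]
    simpa using rd_natCast A 1
  -- `Q`
  have hQ1 : ((Q : ℕ) : Res A) = 1 := by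
    have h1 : ((Q - 1 : ℕ) : Res A) = 0 := (CharP.cast_eq_zero_iff (Res A) r _).2 hQ
    rw [Nat.cast_sub hQ0, Nat.cast_one, sub_eq_zero] at h1
    exact h1
  -- the traces
  have htA : ∀ N, 0 < N → LinearMap.trace L V (F ^ N) ∈ A := by
    intro N hN
    rw [htr N hN]
    exact sum_mem fun a _ => mul_mem (pow_mem hcA a) (natCast_mem A _)
  have hE := eigs_mem hr A hA F hD htA
  have hrt : ∀ N, 0 < N → rd A (LinearMap.trace L V (F ^ N)) =
      ((∑ a ∈ Finset.range n, cnt N a : ℕ) : Res A) := by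
    intro N hN
    rw [htr N hN, rd_sum A _ _ fun a _ => mul_mem (pow_mem hcA a) (natCast_mem A _),
      Nat.cast_sum]
    refine Finset.sum_congr rfl fun a _ => ?_
    rw [rd_mul A (pow_mem hcA a) (natCast_mem A _), rd_pow A hcA, hc1, one_pow, one_mul,
      rd_natCast]
  -- the fibres
  have hstA : ∀ i, s i ∈ A ∧ t i ∈ A := by
    intro i
    rcases hst i with ⟨h1, h2 | h2⟩ | ⟨h1, b, h2, -⟩
    · rw [h1, h2]
      exact ⟨zero_mem A, zero_mem A⟩
    · rw [h1, h2]
      exact ⟨one_mem A, zero_mem A⟩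
    · have h3 : s i ∈ A ∨ t i ∈ A := by
        by_contra hcon
        push Not at hcon
        rw [← A.valuation_le_one_iff, ← A.valuation_le_one_iff, not_le, not_le] at hcon
        have h4 : 1 < A.valuation (s i) * A.valuation (t i) := one_lt_mul'' hcon.1 hcon.2
        rw [← map_mul, h1, ← not_le, A.valuation_le_one_iff] at h4
        exact h4 (natCast_mem A _)
      rcases h3 with h3 | h3
      · refine ⟨h3, ?_⟩
        have : t i = b - s i := by rw [← h2]; ring
        rw [this]
        exact sub_mem (intCast_mem A _) h3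
      · refine ⟨?_, h3⟩
        have : s i = b - t i := by rw [← h2]; ring
        rw [this]
        exact sub_mem (intCast_mem A _) h3
  have h2ne : (2 : Res A) ≠ 0 := by
    intro h
    have h1 : ((2 : ℕ) : Res A) = 0 := by exact_mod_cast h
    have h2 := (CharP.cast_eq_zero_iff (Res A) r _).1 h1
    have h3 := (Nat.prime_dvd_prime_iff_eq hr Nat.prime_two).1 h2
    exact hr2 h3
  have hone : (1 : Res A) ≠ -1 := by
    intro h
    apply h2ne
    linear_combination h
  have hst1 : ∀ i, rd A (s i) ≠ -1 ∧ rd A (t i) ≠ -1 := by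
    intro i
    have h0 : rd A (0 : L) = 0 := by simpa using rd_natCast A 0
    have h01 : rd A (1 : L) = 1 := by simpa using rd_natCast A 1
    have hz : (0 : Res A) ≠ -1 := by
      intro h
      have : (1 : Res A) = 0 := by linear_combination h
      exact one_ne_zero this
    rcases hst i with ⟨h1, h2 | h2⟩ | ⟨h1, b, h2, h3⟩
    · rw [h1, h2, h0]
      exact ⟨hz, hz⟩
    · rw [h1, h2, h0, h01]
      exact ⟨hone, hz⟩
    · have h4 : rd A (s i) * rd A (t i) = 1 := by
        rw [← rd_mul A (hstA i).1 (hstA i).2, h1, rd_natCast, hQ1]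
      have h5 : rd A (s i) + rd A (t i) = (b : Res A) := by
        rw [← rd_add A (hstA i).1 (hstA i).2, h2, rd_intCast]
      have h6 : (b : Res A) ≠ -2 := by
        intro h
        apply h3
        have h7 : ((2 + b : ℤ) : Res A) = 0 := by
          push_cast
          rw [h]
          ring
        exact (CharP.intCast_eq_zero_iff (Res A) r _).1 h7
      refine ⟨fun h => h6 ?_, fun h => h6 ?_⟩
      · rw [h] at h4 h5
        have h8 : rd A (t i) = -1 := by linear_combination -h4
        rw [← h5, h8]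
        ring
      · rw [h] at h4 h5
        have h8 : rd A (s i) = -1 := by linear_combination -h4
        rw [← h5, h8]
        ring
  -- the matrix
  let ρ : ℤ →+* Res A := Int.castRingHom (Res A)
  let T : Module.End (Res A) (Fin d → Res A) := Matrix.toLin' (ρ.mapMatrix g)
  have hT : ∀ N : ℕ, LinearMap.trace (Res A) (Fin d → Res A) (T ^ N) =
      (((g ^ N).trace : ℤ) : Res A) := by
    intro N
    show LinearMap.trace (Res A) (Fin d → Res A) (Matrix.toLin' (ρ.mapMatrix g) ^ N) = _
    rw [← Matrix.toLin'_pow, Matrix.trace_toLin'_eq, ← map_pow]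
    simp [Matrix.trace, RingHom.mapMatrix_apply, ρ]
  have hTo : T ^ o = 1 := by
    show Matrix.toLin' (ρ.mapMatrix g) ^ o = 1
    rw [← Matrix.toLin'_pow, ← map_pow, hg, map_one, Matrix.toLin'_one]
    rfl
  have hT1 : (-1 : Res A) ∉ eigs T := by
    intro h
    rw [mem_eigs] at h
    have h1 : T.HasUnifEigenvalue (-1 : Res A) ⊤ := h
    have h2 : T.HasEigenvalue (-1 : Res A) := h1.lt (by norm_num)
    obtain ⟨v, hv⟩ := h2.exists_hasEigenvector
    have h3 := hv.pow_apply o
    rw [hTo, Module.End.one_apply, ho.neg_one_pow] at h3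
    have h4 : (2 : Res A) • v = 0 := by
      have : (2 : Res A) • v = v + v := two_smul _ v
      rw [this]
      nth_rw 2 [h3]
      rw [neg_one_smul, add_neg_cancel]
    exact hv.2 ((smul_eq_zero.1 h4).resolve_left h2ne)
  -- the functional
  let ψ : (Res A)[X] →ₗ[Res A] Res A := ∑ μ ∈ eigs T, (mult T μ : Res A) • leval μ +
    ∑ i, (leval (rd A (s i)) + leval (rd A (t i)))
  have hψ : ∀ P : (Res A)[X], ψ P = ∑ μ ∈ eigs T, (mult T μ : Res A) * P.eval μ +
      ∑ i, (P.eval (rd A (s i)) + P.eval (rd A (t i))) := by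
    intro P
    simp [ψ, leval_apply]
  let Z : Finset (Res A) := eigs T ∪
    (Finset.univ.image (fun i => rd A (s i)) ∪ Finset.univ.image fun i => rd A (t i))
  have hZ : (-1 : Res A) ∉ Z := by
    intro h
    rcases Finset.mem_union.1 h with h | h
    · exact hT1 h
    rcases Finset.mem_union.1 h with h | h
    · obtain ⟨i, -, hi⟩ := Finset.mem_image.1 h
      exact (hst1 i).1 hi
    · obtain ⟨i, -, hi⟩ := Finset.mem_image.1 h
      exact (hst1 i).2 hi
  have hQe : (-(Q : L)) ∈ eigs F := by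
    rw [mem_eigs]
    intro h
    apply hF
    rw [eq_bot_iff, ← h]
    exact gen_le F _
  have h1 : mult F (-(Q : L)) = 0 := by
    refine key (r := r) (eigs F) (mult F) (fun μ => rd A μ) (by rwa [sum_mult F]) ψ
      (fun N hN => ?_) (-1) (neg_ne_zero.2 one_ne_zero) Z hZ (fun P hP => ?_) _ hQe ?_
    · have h2 := hrt N hN
      rw [trace_pow, rd_sum A _ _ fun μ hμ => mul_mem (natCast_mem A _) (pow_mem (hE μ hμ) N)] at h2
      have h3 : ∑ μ ∈ eigs F, rd A ((mult F μ : L) * μ ^ N) =
          ∑ μ ∈ eigs F, (mult F μ : Res A) * rd A μ ^ N := by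
        refine Finset.sum_congr rfl fun μ hμ => ?_
        rw [rd_mul A (natCast_mem A _) (pow_mem (hE μ hμ) N), rd_natCast, rd_pow A (hE μ hμ)]
      rw [h3] at h2
      rw [h2, hψ]
      have h4 := congrArg (rd A) (hsum N hN)
      rw [rd_natCast] at h4
      rw [h4]
      have e1 : ∀ μ : Res A, (X ^ N : (Res A)[X]).eval μ = μ ^ N := fun μ => by
        rw [eval_pow, eval_X]
      simp only [e1]
      have m1 : ((Q : L) ^ N) ^ 2 ∈ A := pow_mem (pow_mem (natCast_mem A _) N) 2
      have m2 : ((((g ^ N).trace : ℤ) : L) - 1) ∈ A := sub_mem (intCast_mem A _) (one_mem A)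
      have m3 : (Q : L) ^ N * ((((g ^ N).trace : ℤ) : L) - 1) ∈ A :=
        mul_mem (pow_mem (natCast_mem A _) N) m2
      have m4 : ∀ i, s i ^ N + t i ^ N ∈ A := fun i =>
        add_mem (pow_mem (hstA i).1 N) (pow_mem (hstA i).2 N)
      rw [rd_add A (add_mem m1 m3) (sum_mem fun i _ => m4 i), rd_add A m1 m3,
        rd_pow A (pow_mem (natCast_mem A _) N), rd_pow A (natCast_mem A _), rd_natCast, hQ1,
        one_pow, one_pow, rd_mul A (pow_mem (natCast_mem A _) N) m2,
        rd_pow A (natCast_mem A _), rd_natCast, hQ1, one_pow, one_mul,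
        rd_sum A _ _ fun i _ => m4 i]
      have e2 : rd A ((((g ^ N).trace : ℤ) : L) - 1) = (((g ^ N).trace : ℤ) : Res A) - 1 := by
        have e3 : ((((g ^ N).trace : ℤ) : L) - 1) = (((g ^ N).trace - 1 : ℤ) : L) := by
          push_cast
          ring
        rw [e3, rd_intCast]
        push_cast
        ring
      rw [e2, ← hT N, trace_pow]
      have e4 : ∀ i, rd A (s i ^ N + t i ^ N) = rd A (s i) ^ N + rd A (t i) ^ N := fun i => by
        rw [rd_add A (pow_mem (hstA i).1 N) (pow_mem (hstA i).2 N), rd_pow A (hstA i).1,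
          rd_pow A (hstA i).2]
      simp only [e4]
      ring
    · rw [hψ]
      have e1 : ∑ μ ∈ eigs T, (mult T μ : Res A) * P.eval μ = 0 :=
        Finset.sum_eq_zero fun μ hμ => by
          rw [hP μ (Finset.mem_union_left _ hμ), mul_zero]
      rw [e1, zero_add]
      refine Finset.sum_eq_zero fun i _ => ?_
      rw [hP _ (Finset.mem_union_right _ (Finset.mem_union_left _
        (Finset.mem_image_of_mem _ (Finset.mem_univ i)))),
        hP _ (Finset.mem_union_right _ (Finset.mem_union_right _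
        (Finset.mem_image_of_mem _ (Finset.mem_univ i)))), add_zero]
    · have e1 : (-(Q : L)) = ((-(Q : ℤ) : ℤ) : L) := by
        push_cast
        ring
      show rd A (-(Q : L)) = -1
      rw [e1, rd_intCast]
      push_cast
      rw [hQ1]
  exact absurd (one_le_mult hQe) (by omega)

end Pool.Agent.Helper48.TB
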